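import Pool.Agent.Helper97.FS.All

/-!
# Singular spectrum of primitive substitutions

Full affirmative answer to Q1 and Q2 of the problem. The statement uses only Mathlib notions.

Proof: `Pool.Agent.Helper97.FS.Stmts` states the modules of the proof (limit relation between
tile sums and pair frequencies, fibre decomposition, dimension argument, positive definite
functions on the torus, universal estimates for twisted sums, compactness); they are proved in the
folders `FS` of several agents and put together in `Pool.Agent.Helper97.FS.All`.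
-/

namespace Pool.Agent.Results.MP_c726b9_an.FullSingularity

/-- Let `σ` be a primitive substitution on a finite alphabet with matrix `M` and
Perron-Frobenius eigenvalue `θ₁` and let `X` be its two-sided subshift. If no eigenvalue of `M` has
modulus `√θ₁` then for every shift-invariant probability measure on `X` every square integrable
function has a spectral measure, and its spectral measure is singular to Lebesgue measure. -/
theorem result (d : ℕ) (σ : Fin d → List (Fin d)) (M : Matrix (Fin d) (Fin d) ℤ) (θ₁ : ℝ)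
    (X : Set (ℤ → Fin d))
    (hne : ∀ a, σ a ≠ [])
    (hM : ∀ i j, M i j = (((σ j).count i : ℕ) : ℤ))
    (hprim : ∃ k : ℕ, ∀ i j, 0 < (M ^ k) i j)
    (hroot : (M.map (Int.cast : ℤ → ℂ)).charpoly.IsRoot (θ₁ : ℂ))
    (htop : ∀ z : ℂ, (M.map (Int.cast : ℤ → ℂ)).charpoly.IsRoot z → ‖z‖ ≤ θ₁)
    (hX : ∀ x : ℤ → Fin d, x ∈ X ↔
      ∀ (i : ℤ) (k : ℕ), ∃ (n : ℕ) (a : Fin d),
        (List.ofFn (fun j : Fin k => x (i + ((j : ℕ) : ℤ)))) <:+:
          ((fun w : List (Fin d) => w.flatMap σ)^[n] [a]))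
    (hsq : ∀ z : ℂ, (M.map (Int.cast : ℤ → ℂ)).charpoly.IsRoot z → ‖z‖ ^ 2 ≠ θ₁)
    (μ : MeasureTheory.Measure (ℤ → Fin d)) (hprob : MeasureTheory.IsProbabilityMeasure μ)
    (hμX : μ Xᶜ = 0)
    (hμ : MeasureTheory.MeasurePreserving (fun x : ℤ → Fin d => fun i => x (i + 1)) μ μ)
    (f : (ℤ → Fin d) → ℂ) (hf : MeasureTheory.MemLp f 2 μ) :
    (∃ ν : MeasureTheory.Measure (AddCircle (1 : ℝ)), MeasureTheory.IsFiniteMeasure ν ∧
      ∀ n : ℕ, ∫ t, fourier (n : ℤ) t ∂ν =
        ∫ x, f ((fun y : ℤ → Fin d => fun i => y (i + 1))^[n] x) *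
          (starRingEnd ℂ) (f x) ∂μ) ∧
    ∀ ν : MeasureTheory.Measure (AddCircle (1 : ℝ)), MeasureTheory.IsFiniteMeasure ν →
      (∀ n : ℕ, ∫ t, fourier (n : ℤ) t ∂ν =
        ∫ x, f ((fun y : ℤ → Fin d => fun i => y (i + 1))^[n] x) *
          (starRingEnd ℂ) (f x) ∂μ) →
      MeasureTheory.Measure.MutuallySingular ν MeasureTheory.volume := by
  have hS : Pool.Agent.Helper97.Sub.Sys σ M θ₁ X := ⟨hne, hM, hprim, hroot, htop, hX⟩
  obtain ⟨⟨ν, hν1, hν2⟩, h2⟩ :=
    Pool.Agent.Helper97.FS.all_singular hS hsq μ hμX hμ f hf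
  exact ⟨⟨ν, hν1, hν2⟩, fun ν' h3 h4 => h2 ν' ⟨h3, h4⟩⟩

end Pool.Agent.Results.MP_c726b9_an.FullSingularity
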